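import Pool.Agent.ADC.Core

/-!
The supercongruence for `Z_p(96)` modulo `p ^ 2` (problem MP_adc642_nt, question Q1).

The definitions of the statement are `franel`, `Z` and `CongSq` below; the congruence is proved in `Pool.Agent.ADC.Core`
in the ring of integers modulo `p ^ 2` and transferred here to the ring of rationals with denominator prime to `p`.
-/

set_option autoImplicit false

namespace Pool.Agent.Results.MP_adc642_nt.ZpNinetySix

open Finset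

/-- The Franel number `f_n = ∑_{k=0}^{n} C(n,k)^3`. -/
def franel (n : ℕ) : ℕ := ∑ k ∈ range (n + 1), (n.choose k) ^ 3

/-- The rational number `Z_p(m) = ∑_{n=0}^{p-1} C(2n,n) f_n m^(-n)`. -/
def Z (p : ℕ) (m : ℤ) : ℚ := ∑ n ∈ range p, ((2 * n).choose n : ℚ) * (franel n : ℚ) / (m : ℚ) ^ n

/-- Congruence modulo `p ^ 2` in the ring of rational numbers whose denominator is prime to the prime `p`: both numbers
belong to this ring and their difference is `p ^ 2` times an element of this ring. -/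
def CongSq (p : ℕ) (x y : ℚ) : Prop :=
  ¬ p ∣ x.den ∧ ¬ p ∣ y.den ∧ ∃ z : ℚ, ¬ p ∣ z.den ∧ x - y = (p : ℚ) ^ 2 * z

theorem den_of {p : ℕ} (hp : p.Prime) (h5 : 5 ≤ p) (K : ℤ) (N : ℕ) : ¬ p ∣ ((K : ℚ) / ((96 ^ N : ℤ) : ℚ)).den := by
  intro h
  have h1 : (((K : ℚ) / ((96 ^ N : ℤ) : ℚ)).den : ℤ) ∣ (96 ^ N : ℤ) := by
    rw [← Rat.divInt_eq_div]
    exact Rat.den_dvd K (96 ^ N)
  have h2 : ((K : ℚ) / ((96 ^ N : ℤ) : ℚ)).den ∣ 96 ^ N := by exact_mod_cast h1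
  have h3 : p ∣ 96 := hp.dvd_of_dvd_pow (h.trans h2)
  have h4 : p ∣ 2 ^ 5 * 3 := by norm_num; exact h3
  rcases (Nat.Prime.dvd_mul hp).1 h4 with h | h
  · have := Nat.le_of_dvd (by norm_num) (hp.dvd_of_dvd_pow h)
    omega
  · have := Nat.le_of_dvd (by norm_num) h
    omega

theorem cong_of {p : ℕ} (hp : p.Prime) (h5 : 5 ≤ p) (N : ℤ) (h : ADC.Zs p = (N : ADC.RR p)) : CongSq p (Z p 96) (N : ℚ) := by
  set I : ℤ := ∑ n ∈ range p, (ADC.bb n : ℤ) * 96 ^ (p - 1 - n) with hI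
  have hZ : Z p 96 = (I : ℚ) / ((96 ^ (p - 1) : ℤ) : ℚ) := by
    rw [hI, Z]
    push_cast
    rw [Finset.sum_div]
    apply Finset.sum_congr rfl
    intro n hn
    have hn' : n ≤ p - 1 := by have := mem_range.1 hn; omega
    have e : (96 : ℚ) ^ (p - 1) = 96 ^ n * 96 ^ (p - 1 - n) := by rw [← pow_add]; congr 1; omega
    rw [e, ADC.bb]
    have hf : franel n = ADC.fran n := rfl
    rw [hf]
    push_cast
    field_simp
  have hcop : Nat.Coprime 96 (p ^ 2) := by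
    apply Nat.Coprime.pow_right
    rw [Nat.coprime_comm]
    rw [Nat.Prime.coprime_iff_not_dvd hp]
    intro h3
    have h4 : p ∣ 2 ^ 5 * 3 := by norm_num; exact h3
    rcases (Nat.Prime.dvd_mul hp).1 h4 with h | h
    · have := Nat.le_of_dvd (by norm_num) (hp.dvd_of_dvd_pow h)
      omega
    · have := Nat.le_of_dvd (by norm_num) h
      omega
  have hu : (96 : ADC.RR p) * (96 : ADC.RR p)⁻¹ = 1 := by
    have := ZMod.coe_mul_inv_eq_one (n := p ^ 2) 96 hcop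
    exact_mod_cast this
  have hI2 : (I : ADC.RR p) = (96 : ADC.RR p) ^ (p - 1) * N := by
    rw [← h, ADC.Zs, hI]
    push_cast
    rw [Finset.mul_sum]
    apply Finset.sum_congr rfl
    intro n hn
    have hn' : n ≤ p - 1 := by have := mem_range.1 hn; omega
    have e : (96 : ADC.RR p) ^ (p - 1) = 96 ^ n * 96 ^ (p - 1 - n) := by rw [← pow_add]; congr 1; omega
    have e2 : (96 : ADC.RR p) ^ n * (96 : ADC.RR p)⁻¹ ^ n = 1 := by rw [← mul_pow, hu, one_pow]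
    rw [e]
    linear_combination (-(ADC.bb n : ADC.RR p) * 96 ^ (p - 1 - n)) * e2
  have hd : ((p ^ 2 : ℕ) : ℤ) ∣ I - 96 ^ (p - 1) * N := by
    rw [← ZMod.intCast_zmod_eq_zero_iff_dvd]
    push_cast
    rw [hI2]
    ring
  obtain ⟨K, hK⟩ := hd
  refine ⟨?_, ?_, (K : ℚ) / ((96 ^ (p - 1) : ℤ) : ℚ), den_of hp h5 K (p - 1), ?_⟩
  · rw [hZ]
    exact den_of hp h5 I (p - 1)
  · rw [Rat.den_intCast]
    exact fun h => hp.one_lt.ne' (Nat.dvd_one.1 h)
  · rw [hZ]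
    have hK' : (I : ℚ) - 96 ^ (p - 1) * N = (p : ℚ) ^ 2 * K := by exact_mod_cast hK
    push_cast
    field_simp
    linear_combination hK'

/-- Question Q1 of the problem, in full: for every prime `p ≥ 5`,
(a) if `p ≡ 1` or `3 (mod 8)`, then `p = x^2 + 2 y^2` for some integers, and `Z_p(96) ≡ (p/3) (4 x^2 - 2 p) (mod p^2)` for all
such integers `x`, `y`; (b) if `p ≡ 5` or `7 (mod 8)`, then `Z_p(96) ≡ 0 (mod p^2)`. -/
theorem result (p : ℕ) (hp : p.Prime) (h5 : 5 ≤ p) :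
    ((p % 8 = 1 ∨ p % 8 = 3) →
      (∃ x y : ℤ, (p : ℤ) = x ^ 2 + 2 * y ^ 2) ∧
      ∀ x y : ℤ, (p : ℤ) = x ^ 2 + 2 * y ^ 2 → CongSq p (Z p 96) ((legendreSym 3 p : ℚ) * (4 * (x : ℚ) ^ 2 - 2 * (p : ℚ)))) ∧
    ((p % 8 = 5 ∨ p % 8 = 7) → CongSq p (Z p 96) 0) := by
  have : Fact p.Prime := ⟨hp⟩
  refine ⟨fun h => ⟨?_, fun x y hxy => ?_⟩, fun h => ?_⟩
  · obtain ⟨a, b, hab, -⟩ := ADC.rep_val (p := p) h5 h
    exact ⟨a, b, hab.symm⟩
  · have h1 := cong_of hp h5 _ (ADC.core_a h5 hxy.symm)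
    push_cast at h1
    exact h1
  · have h1 := cong_of hp h5 0 (by rw [ADC.core_b hp h5 h]; simp)
    simpa using h1

end Pool.Agent.Results.MP_adc642_nt.ZpNinetySix
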